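import Pool.Agent.H37.CTL.Stmts
import Pool.Agent.H1.CNZ.TWI

/-!
# Row T41 of the board `ctl`: the roots of `T ^ (q ^ 3) + t T ^ q + T` at a place at infinity
-/

set_option autoImplicit false

namespace Pool.CND

open Finset

namespace T41

section places

variable {k L : Type} [Field k] [Field L] [Algebra k L] (P : Place k L)

/-- three nonzero terms with sum zero: the least order is taken twice -/
theorem no_min {a b c : L} (ha : a ≠ 0) (hb : b ≠ 0) (hc : c ≠ 0) (h : a + b + c = 0) :
    ¬ (P.ord a < P.ord b ∧ P.ord a < P.ord c) := by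
  rintro ⟨h1, h2⟩
  have h3 : P.Ge (b + c) (P.ord a + 1) :=
    P.ge_add (Or.inr (by omega)) (Or.inr (by omega))
  have h4 := (P.ord_add_of_lt ha h3).1
  exact h4 (by rw [← add_assoc]; exact h)

/-- orders of the roots -/
theorem ord_root {q : ℕ} (hq : 2 ≤ q) {t x : L} (ht0 : t ≠ 0) (ht : P.ord t < 0) (hx : x ≠ 0)
    (hrel : x ^ q ^ 3 + t * x ^ q + x = 0) :
    ((q : ℤ) - 1) * P.ord x = -P.ord t ∨ ((q : ℤ) ^ 3 - q) * P.ord x = P.ord t := by
  have hA : x ^ q ^ 3 ≠ 0 := pow_ne_zero _ hx
  have hB : t * x ^ q ≠ 0 := mul_ne_zero ht0 (pow_ne_zero _ hx)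
  have oA : P.ord (x ^ q ^ 3) = (q : ℤ) ^ 3 * P.ord x := by
    rw [P.ord_pow hx]
    push_cast
    ring
  have oB : P.ord (t * x ^ q) = P.ord t + q * P.ord x := by
    rw [P.ord_mul _ _ ht0 (pow_ne_zero _ hx), P.ord_pow hx]
  have n1 := no_min P hA hB hx hrel
  have n2 := no_min P hB hA hx (by linear_combination hrel)
  have n3 := no_min P hx hA hB (by linear_combination hrel)
  rw [oA, oB] at n1 n2 n3
  have hq2 : (2 : ℤ) ≤ q := by exact_mod_cast hq
  have hq3 : (2 : ℤ) ≤ (q : ℤ) ^ 3 := by nlinarith [sq_nonneg ((q : ℤ))]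
  generalize P.ord x = o at *
  generalize P.ord t = τ at *
  generalize (q : ℤ) ^ 3 = Q at *
  generalize (q : ℤ) = r at *
  rcases lt_trichotomy o 0 with ho | ho | ho
  · right
    have h1 : Q * o < o := by nlinarith
    have h2 : τ + r * o = Q * o := by
      by_contra hne
      rcases lt_or_gt_of_ne hne with h | h
      · exact n2 ⟨h, by omega⟩
      · exact n1 ⟨h, h1⟩
    linear_combination -h2
  · exfalso
    rw [ho] at n2
    apply n2
    constructor <;> omega
  · left
    have h1 : o < Q * o := by nlinarith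
    have h2 : τ + r * o = o := by
      by_contra hne
      rcases lt_or_gt_of_ne hne with h | h
      · exact n2 ⟨by omega, h⟩
      · exact n3 ⟨h1, h⟩
    linear_combination h2

/-- order of a product -/
theorem ord_prod {ι : Type} (s : Finset ι) (f : ι → L) (h : ∀ i ∈ s, f i ≠ 0) :
    P.ord (∏ i ∈ s, f i) = ∑ i ∈ s, P.ord (f i) := by
  classical
  induction s using Finset.induction_on with
  | empty => simp [P.ord_one]
  | insert a s ha ih =>
    rw [Finset.prod_insert ha, Finset.sum_insert ha,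
      P.ord_mul _ _ (h a (mem_insert_self a s))
        (Finset.prod_ne_zero_iff.2 fun i hi => h i (mem_insert_of_mem hi)),
      ih (fun i hi => h i (mem_insert_of_mem hi))]

/-- the product of the nonzero roots -/
theorem prod_roots {ι : Type} {q : ℕ} (hq : 2 ≤ q) {t : L} (s : Finset ι) (r : ι → L)
    (hcard : s.card = q ^ 3 - 1) (hinj : Set.InjOn r s) (hr0 : ∀ i ∈ s, r i ≠ 0)
    (hrel : ∀ i ∈ s, r i ^ q ^ 3 + t * r i ^ q + r i = 0) :
    ∏ i ∈ s, (-r i) = 1 := by
  classical
  have hq3 : q ≤ q ^ 3 := Nat.le_self_pow (by norm_num) q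
  have hq3' : q < q ^ 3 := by
    calc q = q ^ 1 := (pow_one q).symm
      _ < q ^ 3 := Nat.pow_lt_pow_right (by omega) (by norm_num)
  set n := q ^ 3 - 1 with hn
  set m := q - 1 with hm
  have hmn : m < n := by omega
  have hm0 : m ≠ 0 := by omega
  have hn0 : n ≠ 0 := by omega
  set low : Polynomial L := Polynomial.C t * Polynomial.X ^ m + 1 with hlow
  have hdeglow : low.degree < n := by
    have h1 : (Polynomial.C t * Polynomial.X ^ m : Polynomial L).degree ≤ m :=
      Polynomial.degree_C_mul_X_pow_le m t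
    have h2 : (1 : Polynomial L).degree ≤ (m : WithBot ℕ) := by
      refine (Polynomial.degree_one_le).trans ?_
      exact_mod_cast Nat.zero_le m
    refine lt_of_le_of_lt (Polynomial.degree_add_le_of_degree_le h1 h2) ?_
    exact_mod_cast hmn
  set g : Polynomial L := Polynomial.X ^ n + low with hg
  have hgm : g.Monic := Polynomial.monic_X_pow_add hdeglow
  have hgd : g.degree = n := by
    rw [hg, Polynomial.degree_add_eq_left_of_degree_lt]
    · exact Polynomial.degree_X_pow n
    · rw [Polynomial.degree_X_pow]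
      exact hdeglow
  set h : Polynomial L := ∏ i ∈ s, (Polynomial.X - Polynomial.C (r i)) with hh
  have hhm : h.Monic := Polynomial.monic_prod_of_monic _ _ fun i _ => Polynomial.monic_X_sub_C _
  have hhd : h.degree = n := by
    rw [Polynomial.degree_eq_natDegree hhm.ne_zero, hh,
      Polynomial.natDegree_prod_of_monic _ _ fun i _ => Polynomial.monic_X_sub_C _]
    simp only [Polynomial.natDegree_X_sub_C, sum_const, smul_eq_mul, mul_one]
    rw [hcard]
  have heq : g = h := by
    refine Polynomial.eq_of_degree_sub_lt_of_eval_index_eq s hinj ?_ ?_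
    · rw [hcard]
      have h1 := Polynomial.degree_sub_lt (hgd.trans hhd.symm) hgm.ne_zero
        (by rw [hgm.leadingCoeff, hhm.leadingCoeff])
      rw [hgd] at h1
      exact h1
    · intro i hi
      have e1 : h.eval (r i) = 0 := by
        rw [hh, Polynomial.eval_prod]
        exact Finset.prod_eq_zero hi (by simp)
      have e2 : r i * g.eval (r i) = 0 := by
        rw [hg, hlow]
        simp only [Polynomial.eval_add, Polynomial.eval_pow, Polynomial.eval_X,
          Polynomial.eval_mul, Polynomial.eval_C, Polynomial.eval_one]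
        have hrl := hrel i hi
        have p1 : r i ^ q ^ 3 = r i * r i ^ n := by
          rw [← pow_succ', hn, Nat.sub_add_cancel (by omega)]
        have p2 : r i ^ q = r i * r i ^ m := by
          rw [← pow_succ', hm, Nat.sub_add_cancel (by omega)]
        rw [p1, p2] at hrl
        linear_combination hrl
      rw [e1]
      exact (mul_eq_zero.1 e2).resolve_left (hr0 i hi)
  have h0 : g.eval 0 = 1 := by
    rw [hg, hlow]
    simp [hm0, hn0]
  rw [heq, hh, Polynomial.eval_prod] at h0
  simpa using h0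

end places

section main

variable {k F L : Type} [Field k] [Field F] [Field L] [Algebra F k] [Algebra k L]

/-- the root with coordinates `c` -/
noncomputable def rt (X : Fin 3 → L) (c : Fin 3 → F) : L := ∑ i, cst k F L (c i) * X i

theorem rt_rel (p f q : ℕ) (hp : p.Prime) (hch : CharP k p) (hq : q = p ^ f)
    (hF : Nat.card F = q) (hq2 : 2 ≤ q) (t : L) (X : Fin 3 → L)
    (hrel : ∀ i, X i ^ q ^ 3 + t * X i ^ q + X i = 0) (c : Fin 3 → F) :
    rt (k := k) X c ^ q ^ 3 + t * rt (k := k) X c ^ q + rt (k := k) X c = 0 := by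
  have : Finite F := Nat.finite_of_card_ne_zero (by omega)
  have : Fintype F := Fintype.ofFinite F
  have : Fact p.Prime := ⟨hp⟩
  have hcL : CharP L p := charP_of_injective_algebraMap (algebraMap k L).injective p
  have : ExpChar L p := ExpChar.prime hp
  have hcard : Fintype.card F = q := by rw [← Nat.card_eq_fintype_card, hF]
  have hfro : ∀ a : F, cst k F L a ^ q = cst k F L a := by
    intro a
    show (algebraMap k L (algebraMap F k a)) ^ q = _
    rw [← map_pow, ← map_pow, ← hcard, FiniteField.pow_card]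
  have hfro3 : ∀ a : F, cst k F L a ^ q ^ 3 = cst k F L a := by
    intro a
    have : q ^ 3 = q * q * q := by ring
    rw [this, pow_mul, pow_mul, hfro, hfro, hfro]
  have h1 : rt (k := k) X c ^ q = ∑ i, cst k F L (c i) * X i ^ q := by
    unfold rt
    have := sum_pow_char_pow p f (s := (univ : Finset (Fin 3)))
      (f := fun i => cst k F L (c i) * X i)
    rw [← hq] at this
    rw [this]
    refine sum_congr rfl fun i _ => ?_
    rw [mul_pow, hfro]
  have h3 : rt (k := k) X c ^ q ^ 3 = ∑ i, cst k F L (c i) * X i ^ q ^ 3 := by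
    unfold rt
    have hq3 : q ^ 3 = p ^ (f * 3) := by rw [hq, ← pow_mul]
    have := sum_pow_char_pow p (f * 3) (s := (univ : Finset (Fin 3)))
      (f := fun i => cst k F L (c i) * X i)
    rw [← hq3] at this
    rw [this]
    refine sum_congr rfl fun i _ => ?_
    rw [mul_pow, hfro3]
  rw [h1, h3]
  unfold rt
  rw [mul_sum, ← sum_add_distrib, ← sum_add_distrib]
  refine sum_eq_zero fun i _ => ?_
  linear_combination (cst k F L (c i)) * hrel i

theorem rt_sub (X : Fin 3 → L) (c d : Fin 3 → F) :
    rt (k := k) X (c - d) = rt (k := k) X c - rt (k := k) X d := by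
  unfold rt cst
  rw [← sum_sub_distrib]
  refine sum_congr rfl fun i _ => ?_
  rw [Pi.sub_apply, map_sub, map_sub, sub_mul]

theorem rt_smul (X : Fin 3 → L) (a : F) (c : Fin 3 → F) :
    rt (k := k) X (a • c) = cst k F L a * rt (k := k) X c := by
  unfold rt cst
  rw [mul_sum]
  refine sum_congr rfl fun i _ => ?_
  rw [Pi.smul_apply, smul_eq_mul, map_mul, map_mul, mul_assoc]

/-- the roots of the first kind form a line -/
theorem line (p f q : ℕ) (hp : p.Prime) (hch : CharP k p) (hq : q = p ^ f)
    (hF : Nat.card F = q) (hq2 : 2 ≤ q) (t : L) (ht0 : t ≠ 0) (X : Fin 3 → L)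
    (hrel : ∀ i, X i ^ q ^ 3 + t * X i ^ q + X i = 0)
    (hind : ∀ c : Fin 3 → F, rt (k := k) X c = 0 → c = 0) (P : Place k L) (ht : P.ord t < 0) :
    ∃ c₀ : Fin 3 → F, c₀ ≠ 0 ∧ ((q : ℤ) - 1) * P.ord (rt (k := k) X c₀) = -P.ord t ∧
      ∀ c : Fin 3 → F, (∀ a : F, c ≠ a • c₀) →
        ((q : ℤ) ^ 3 - q) * P.ord (rt (k := k) X c) = P.ord t := by
  classical
  have : Finite F := Nat.finite_of_card_ne_zero (by omega)
  have : Fintype F := Fintype.ofFinite F
  have hcard : Fintype.card F = q := by rw [← Nat.card_eq_fintype_card, hF]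
  set r : (Fin 3 → F) → L := rt (k := k) X with hr
  have hrr : ∀ c, r c ^ q ^ 3 + t * r c ^ q + r c = 0 := fun c =>
    rt_rel p f q hp hch hq hF hq2 t X hrel c
  have hr0 : ∀ c, c ≠ 0 → r c ≠ 0 := fun c hc h => hc (hind c h)
  have hinj : Function.Injective r := by
    intro c d hcd
    have : r (c - d) = 0 := by rw [hr, rt_sub, ← hr, hcd, sub_self]
    exact sub_eq_zero.1 (hind _ this)
  set s : Finset (Fin 3 → F) := univ.filter (fun c => c ≠ 0) with hs
  have hsc : s.card = q ^ 3 - 1 := by
    have h1 : s = univ.erase 0 := by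
      ext c
      simp [hs]
    rw [h1, card_erase_of_mem (mem_univ _), card_univ, Fintype.card_fun, hcard,
      Fintype.card_fin]
  have hmem : ∀ c, c ∈ s ↔ c ≠ 0 := fun c => by simp [hs]
  have hprod := prod_roots (L := L) hq2 (t := t) s r hsc (hinj.injOn)
    (fun c hc => hr0 c ((hmem c).1 hc)) (fun c _ => hrr c)
  have hsum : ∑ c ∈ s, P.ord (r c) = 0 := by
    have h1 := ord_prod P s (fun c => -r c)
      (fun c hc => neg_ne_zero.2 (hr0 c ((hmem c).1 hc)))
    rw [hprod, P.ord_one] at h1
    rw [h1]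
    exact sum_congr rfl fun c _ => (P.ord_neg _).symm
  have htype : ∀ c ∈ s, ((q : ℤ) - 1) * P.ord (r c) = -P.ord t ∨
      ((q : ℤ) ^ 3 - q) * P.ord (r c) = P.ord t := fun c hc =>
    ord_root P hq2 ht0 ht (hr0 c ((hmem c).1 hc)) (hrr c)
  set A : Finset (Fin 3 → F) := s.filter (fun c => ((q : ℤ) - 1) * P.ord (r c) = -P.ord t) with hA
  set B : Finset (Fin 3 → F) :=
    s.filter (fun c => ¬ ((q : ℤ) - 1) * P.ord (r c) = -P.ord t) with hB
  have hAB : A.card + B.card = s.card := card_filter_add_card_filter_not _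
  have hcount : (A.card : ℤ) * ((q : ℤ) ^ 2 + q) = B.card := by
    have h1 : ((q : ℤ) ^ 3 - q) * ∑ c ∈ s, P.ord (r c) =
        ∑ c ∈ A, (((q : ℤ) ^ 2 + q) * (-P.ord t)) + ∑ c ∈ B, P.ord t := by
      rw [mul_sum, ← sum_filter_add_sum_filter_not s
        (fun c => ((q : ℤ) - 1) * P.ord (r c) = -P.ord t)]
      congr 1
      · refine sum_congr rfl fun c hc => ?_
        rw [mem_filter] at hc
        rw [← hc.2]
        ring
      · refine sum_congr rfl fun c hc => ?_
        rw [mem_filter] at hc
        exact (htype c hc.1).resolve_left hc.2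
    rw [hsum, mul_zero, sum_const, sum_const, nsmul_eq_mul, nsmul_eq_mul] at h1
    have h2 : P.ord t * ((A.card : ℤ) * ((q : ℤ) ^ 2 + q)) = P.ord t * B.card := by
      linear_combination h1
    exact mul_left_cancel₀ (by omega) h2
  have hAcard : (A.card : ℤ) = q - 1 := by
    have h1 : (A.card : ℤ) + B.card = (q : ℤ) ^ 3 - 1 := by
      have : A.card + B.card + 1 = q ^ 3 := by
        rw [hAB, hsc]
        have : 0 < q ^ 3 := by positivity
        omega
      have h2 : ((A.card + B.card + 1 : ℕ) : ℤ) = ((q ^ 3 : ℕ) : ℤ) := by rw [this]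
      push_cast at h2
      linarith
    have h3 : ((A.card : ℤ) - (q - 1)) * ((q : ℤ) ^ 2 + q + 1) = 0 := by
      rw [← hcount] at h1
      linear_combination h1
    have h4 : (q : ℤ) ^ 2 + q + 1 ≠ 0 := by positivity
    have := (mul_eq_zero.1 h3).resolve_right h4
    linarith
  have hAne : A.Nonempty := by
    rw [← card_pos]
    have hq2' : (2 : ℤ) ≤ q := by exact_mod_cast hq2
    omega
  obtain ⟨c₀, hc₀⟩ := hAne
  have hc₀' := (mem_filter.1 hc₀)
  have hc00 : c₀ ≠ 0 := (hmem c₀).1 hc₀'.1
  refine ⟨c₀, hc00, hc₀'.2, ?_⟩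
  -- the multiples of `c₀`
  set T : Finset (Fin 3 → F) := (univ.filter (fun a : F => a ≠ 0)).image (fun a => a • c₀) with hT
  have hTA : T ⊆ A := by
    intro c hc
    rw [hT, mem_image] at hc
    obtain ⟨a, ha, rfl⟩ := hc
    have ha0 : a ≠ 0 := by simpa using ha
    rw [hA, mem_filter, hmem]
    refine ⟨smul_ne_zero ha0 hc00, ?_⟩
    have hca : cst k F L a ≠ 0 := by
      show algebraMap k L (algebraMap F k a) ≠ 0
      rw [Ne, map_eq_zero, map_eq_zero]
      exact ha0
    have e1 : r (a • c₀) = cst k F L a * r c₀ := rt_smul X a c₀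
    rw [e1, P.ord_mul _ _ hca (hr0 c₀ hc00)]
    have e2 : P.ord (cst k F L a) = 0 := by
      apply P.ord_const
      rw [Ne, map_eq_zero]
      exact ha0
    rw [e2, zero_add]
    exact hc₀'.2
  have hTcard : T.card = q - 1 := by
    rw [hT, card_image_of_injective]
    · have h1 : (univ.filter (fun a : F => a ≠ 0)) = univ.erase 0 := by
        ext a
        simp
      rw [h1, card_erase_of_mem (mem_univ _), card_univ, hcard]
    · intro a b hab
      exact smul_left_injective F hc00 hab
  have hTA' : T = A := by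
    apply eq_of_subset_of_card_le hTA
    omega
  intro c hc
  have hcs : c ∈ s := by
    rw [hmem]
    intro h
    exact hc 0 (by rw [h, zero_smul])
  have hcA : c ∉ A := by
    rw [← hTA', hT, mem_image]
    rintro ⟨a, _, h⟩
    exact hc a h.symm
  rcases htype c hcs with h | h
  · exact absurd (mem_filter.2 ⟨hcs, h⟩) hcA
  · exact h

/-- a basis whose first vector is given -/
theorem basis_ext (c : Fin 3 → F) (hc : c ≠ 0) :
    ∃ h : Matrix (Fin 3) (Fin 3) F, h.det ≠ 0 ∧ ∀ j, h j 0 = c j := by
  by_cases h0 : c 0 = 0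
  · by_cases h1 : c 1 = 0
    · have h2 : c 2 ≠ 0 := by
        intro h2
        apply hc
        funext i
        fin_cases i
        · exact h0
        · exact h1
        · exact h2
      refine ⟨!![c 0, 1, 0; c 1, 0, 1; c 2, 0, 0], ?_, ?_⟩
      · rw [Matrix.det_fin_three]
        simpa using h2
      · intro j
        fin_cases j <;> rfl
    · refine ⟨!![c 0, 1, 0; c 1, 0, 0; c 2, 0, 1], ?_, ?_⟩
      · rw [Matrix.det_fin_three]
        simpa using h1
      · intro j
        fin_cases j <;> rfl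
  · refine ⟨!![c 0, 0, 0; c 1, 1, 0; c 2, 0, 1], ?_, ?_⟩
    · rw [Matrix.det_fin_three]
      simpa using h0
    · intro j
      fin_cases j <;> rfl

/-- the new roots -/
theorem rt_basis (X : Fin 3 → L) (h : Matrix (Fin 3) (Fin 3) F) (c : Fin 3 → F) :
    ∑ i, cst k F L (c i) * (∑ j, cst k F L (h j i) * X j) = rt (k := k) X (h.mulVec c) := by
  unfold rt cst Matrix.mulVec dotProduct
  simp only [map_sum, map_mul, mul_sum, sum_mul]
  rw [sum_comm]
  refine sum_congr rfl fun j _ => sum_congr rfl fun i _ => ?_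
  ring

end main

end T41

theorem t41_thm (hT32 : S_T32) (hT36 : S_T36) (hEXI : S_EXI) : S_T41 := by
  intro p k F _ _ _ _ f q hp hch hf hq hF
  have hq2 : 2 ≤ q := by
    rw [hq]
    calc 2 ≤ p := hp.two_le
      _ = p ^ 1 := (pow_one p).symm
      _ ≤ p ^ f := Nat.pow_le_pow_right hp.pos hf
  obtain ⟨L, _, _, t, X, G₀, ρ, hS, hC⟩ := hT32 p k F f q 0 Polynomial.X hp hch hf hq hF
  have : Finite F := Nat.finite_of_card_ne_zero (by omega)
  have : Finite G₀ := inferInstance
  obtain ⟨hfin, hsep⟩ := TWI.fin_sep ρ t hC.cov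
  obtain ⟨P, hP⟩ := hEXI k L t hC.cov.trans hfin hsep
  have ht0 : t ≠ 0 := by
    intro h
    apply hS.tr
    rw [h]
    exact isAlgebraic_zero
  have hrel : ∀ i, X i ^ q ^ 3 + t * X i ^ q + X i = 0 := by
    intro i
    have := hS.rel i
    rw [map_zero, Polynomial.aeval_X] at this
    linear_combination this
  obtain ⟨c₀, hc0, ho, hline⟩ := T41.line (k := k) p f q hp hch hq hF hq2 t ht0 X hrel
    (fun c hc => hS.ind c hc) P hP
  obtain ⟨h, hdet, hcol⟩ := T41.basis_ext c₀ hc0
  obtain ⟨G₁, ρ₁, hS₁, hC₁⟩ := hT36 p k F L f q 0 Polynomial.X t X G₀ ρ h hp hch hf hq hF hS hC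
    hdet
  refine ⟨L, inferInstance, inferInstance, t, fun i => ∑ j, cst k F L (h j i) * X j, G₁, ρ₁, P,
    hS₁, hC₁, hP, ?_, ?_⟩
  · have e : (∑ j, cst k F L (h j 0) * X j) = T41.rt (k := k) X c₀ := by
      unfold T41.rt
      exact sum_congr rfl fun j _ => by rw [hcol]
    show ((q : ℤ) - 1) * P.ord (∑ j, cst k F L (h j 0) * X j) = -P.ord t
    rw [e]
    exact ho
  · intro c hc
    show ((q : ℤ) ^ 3 - q) *
      P.ord (∑ i, cst k F L (c i) * (∑ j, cst k F L (h j i) * X j)) = P.ord t
    rw [T41.rt_basis X h c]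
    apply hline
    intro a hac
    -- `h c = a c₀ = h (a e₀)`
    have hcol' : c₀ = h.mulVec (Pi.single 0 1) := by
      funext j
      rw [Matrix.mulVec_single_one]
      exact (hcol j).symm
    rw [hcol', ← Matrix.mulVec_smul] at hac
    have hinj : Function.Injective h.mulVec :=
      Matrix.mulVec_injective_iff_isUnit.2 ((Matrix.isUnit_iff_isUnit_det h).2 hdet.isUnit)
    have hce := hinj hac
    rcases hc with hc | hc
    · apply hc
      rw [hce]
      simp
    · apply hc
      rw [hce]
      simp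

end Pool.CND
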